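import Mathlib

/-!
# Groups of piecewise linear homeomorphisms of the line: germs at the first point moved
-/

set_option autoImplicit false

namespace Pool.Agent.V11133.PL

open Set

/-- `f` is piecewise linear: near each point, on the right, it is one of finitely many affine
functions -/
def IsPL (f : ℝ ≃o ℝ) : Prop :=
  ∃ S : Finset (ℝ × ℝ), ∀ x : ℝ, ∃ p ∈ S, ∃ e > x, ∀ t, x ≤ t → t < e → f t = p.1 * t + p.2

/-- `f` is the identity near `-∞` -/
def BB (f : ℝ ≃o ℝ) : Prop := ∃ r : ℝ, ∀ t ≤ r, f t = t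

/-- `x` is larger than `y` immediately after the first point where they differ -/
def Bef (x y : ℝ ≃o ℝ) : Prop :=
  ∃ a, (∀ t ≤ a, x t = y t) ∧ ∃ e > a, ∀ t, a < t → t < e → y t < x t

lemma Bef.mul_left {x y : ℝ ≃o ℝ} (h : Bef x y) (z : ℝ ≃o ℝ) : Bef (z * x) (z * y) := by
  obtain ⟨a, h1, e, he, h2⟩ := h
  refine ⟨a, fun t ht => ?_, e, he, fun t ht hte => ?_⟩
  · show z (x t) = z (y t)
    rw [h1 t ht]
  · exact z.strictMono (h2 t ht hte)

lemma Bef.mul_right {x y : ℝ ≃o ℝ} (h : Bef x y) (z : ℝ ≃o ℝ) : Bef (x * z) (y * z) := by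
  obtain ⟨a, h1, e, he, h2⟩ := h
  refine ⟨z.symm a, fun t ht => ?_, z.symm e, z.symm.strictMono he, fun t ht hte => ?_⟩
  · exact h1 (z t) (by rwa [← z.le_symm_apply])
  · exact h2 (z t) (by rwa [← z.symm_apply_lt]) (by rwa [← z.lt_symm_apply])

lemma Bef.trans {x y z : ℝ ≃o ℝ} (h : Bef x y) (h' : Bef y z) : Bef x z := by
  obtain ⟨a, h1, e, he, h2⟩ := h
  obtain ⟨b, h3, d, hd, h4⟩ := h'
  rcases lt_trichotomy a b with hab | hab | hab
  · refine ⟨a, fun t ht => (h1 t ht).trans (h3 t (ht.trans hab.le)), min e b, lt_min he hab,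
      fun t ht hte => ?_⟩
    rw [← h3 t (hte.trans_le (min_le_right _ _)).le]
    exact h2 t ht (hte.trans_le (min_le_left _ _))
  · subst hab
    refine ⟨a, fun t ht => (h1 t ht).trans (h3 t ht), min e d, lt_min he hd,
      fun t ht hte => ?_⟩
    exact (h4 t ht (hte.trans_le (min_le_right _ _))).trans
      (h2 t ht (hte.trans_le (min_le_left _ _)))
  · refine ⟨b, fun t ht => (h1 t (ht.trans hab.le)).trans (h3 t ht), min d a, lt_min hd hab,
      fun t ht hte => ?_⟩
    rw [h1 t (hte.trans_le (min_le_right _ _)).le]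
    exact h4 t ht (hte.trans_le (min_le_left _ _))

lemma Bef.irrefl (x : ℝ ≃o ℝ) : ¬ Bef x x := by
  rintro ⟨a, _, e, he, h2⟩
  exact lt_irrefl _ (h2 ((a + e) / 2) (by linarith) (by linarith))

lemma Bef.pow {x y : ℝ ≃o ℝ} (h : Bef x y) (n : ℕ) : Bef (x ^ (n + 1)) (y ^ (n + 1)) := by
  induction n with
  | zero => simpa using h
  | succ n ih =>
    rw [pow_succ x, pow_succ y]
    exact (ih.mul_right x).trans (h.mul_left (y ^ (n + 1)))

/-- the right slope of `f` at `a` is `s` -/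
def HasSl (a : ℝ) (f : ℝ ≃o ℝ) (s : ℝ) : Prop :=
  ∃ q : ℝ, ∃ e > a, ∀ t, a ≤ t → t < e → f t = s * t + q

lemma HasSl.unique {a : ℝ} {f : ℝ ≃o ℝ} {s s' : ℝ} (h : HasSl a f s) (h' : HasSl a f s') :
    s = s' := by
  obtain ⟨q, e, he, h1⟩ := h
  obtain ⟨q', e', he', h2⟩ := h'
  set b := (a + min e e') / 2 with hb
  have hm : a < min e e' := lt_min he he'
  have hab : a < b := by rw [hb]; linarith
  have hbe : b < min e e' := by rw [hb]; linarith
  have e1 := h1 a le_rfl he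
  have e2 := h2 a le_rfl he'
  have e3 := h1 b hab.le (hbe.trans_le (min_le_left _ _))
  have e4 := h2 b hab.le (hbe.trans_le (min_le_right _ _))
  have e5 : (s - s') * (b - a) = 0 := by linear_combination e4 - e3 + e1 - e2
  rcases mul_eq_zero.1 e5 with h | h
  · linarith
  · linarith

lemma HasSl.pos {a : ℝ} {f : ℝ ≃o ℝ} {s : ℝ} (h : HasSl a f s) : 0 < s := by
  obtain ⟨q, e, he, h1⟩ := h
  have e1 := h1 a le_rfl he
  have e2 := h1 ((a + e) / 2) (by linarith) (by linarith)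
  have h2 : f a < f ((a + e) / 2) := f.strictMono (by linarith)
  rw [e1, e2] at h2
  have h3 : 0 < s * ((e - a) / 2) := by linarith
  exact (mul_pos_iff_of_pos_right (by linarith)).1 h3

lemma HasSl.mul {a : ℝ} {f g : ℝ ≃o ℝ} {s s' : ℝ} (h : HasSl a f s) (h' : HasSl (f a) g s') :
    HasSl a (g * f) (s' * s) := by
  obtain ⟨q, e, he, h1⟩ := h
  obtain ⟨q', e', he', h2⟩ := h'
  refine ⟨s' * q + q', min e (f.symm e'), lt_min he (by rwa [f.lt_symm_apply]), fun t ht hte => ?_⟩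
  show g (f t) = _
  rw [h2 (f t) (f.monotone ht) (by
    rw [← f.lt_symm_apply]
    exact hte.trans_le (min_le_right _ _)), h1 t ht (hte.trans_le (min_le_left _ _))]
  ring

lemma HasSl.inv {a : ℝ} {f : ℝ ≃o ℝ} {s : ℝ} (h : HasSl a f s) : HasSl (f a) f⁻¹ s⁻¹ := by
  have hs := h.pos
  obtain ⟨q, e, he, h1⟩ := h
  refine ⟨- s⁻¹ * q, f e, f.strictMono he, fun t ht hte => ?_⟩
  show f.symm t = _
  have h2 := h1 (f.symm t) (by rwa [f.le_symm_apply]) (by rwa [f.symm_apply_lt])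
  rw [f.apply_symm_apply] at h2
  have h3 : s * (f.symm t) = t - q := by linarith
  have h4 : f.symm t = s⁻¹ * (t - q) := by
    rw [← h3, inv_mul_cancel_left₀ hs.ne']
  rw [h4]
  ring

lemma HasSl.one (a : ℝ) : HasSl a 1 1 := ⟨0, a + 1, by linarith, fun t _ _ => by
  show t = _
  ring⟩

lemma fix_of_bdd {f g : ℝ ≃o ℝ} (hf : BB f) (hg : BB g) (hne : f ≠ g) :
    (∀ t ≤ sInf {t | f t ≠ g t}, f t = g t) ∧
      ∀ e > sInf {t | f t ≠ g t}, ∃ t, sInf {t | f t ≠ g t} ≤ t ∧ t < e ∧ f t ≠ g t := by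
  obtain ⟨r, hr⟩ := hf
  obtain ⟨r', hr'⟩ := hg
  set D : Set ℝ := {t | f t ≠ g t} with hD
  have hbdd : BddBelow D := by
    refine ⟨min r r', fun t ht => ?_⟩
    by_contra hcon
    push Not at hcon
    apply ht
    rw [hr t (hcon.le.trans (min_le_left _ _)), hr' t (hcon.le.trans (min_le_right _ _))]
  have hnon : D.Nonempty := by
    by_contra hcon
    rw [Set.not_nonempty_iff_eq_empty] at hcon
    apply hne
    ext t
    by_contra h
    have : t ∈ D := h
    rw [hcon] at this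
    exact this
  have hlt : ∀ t < sInf D, f t = g t := by
    intro t ht
    by_contra h
    exact absurd (csInf_le hbdd (show t ∈ D from h)) (not_le.2 ht)
  refine ⟨fun t ht => ?_, fun e he => ?_⟩
  · rcases ht.lt_or_eq with h | h
    · exact hlt t h
    · -- continuity
      have hc1 : ContinuousWithinAt f (Iio t) t := f.continuous.continuousWithinAt
      have hc2 : ContinuousWithinAt g (Iio t) t := g.continuous.continuousWithinAt
      have heq : ∀ᶠ u in nhdsWithin t (Iio t), f u = g u := by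
        filter_upwards [self_mem_nhdsWithin] with u hu
        exact hlt u (lt_of_lt_of_eq hu h)
      exact tendsto_nhds_unique (hc1.tendsto) ((hc2.tendsto).congr' (heq.mono fun u hu => hu.symm))
  · obtain ⟨t, ht, hte⟩ := exists_lt_of_csInf_lt hnon he
    exact ⟨t, csInf_le hbdd ht, hte, ht⟩

lemma IsPL.hasSl {f : ℝ ≃o ℝ} (h : IsPL f) (a : ℝ) : ∃ s, HasSl a f s := by
  obtain ⟨S, hS⟩ := h
  obtain ⟨p, _, e, he, h1⟩ := hS a
  exact ⟨p.1, p.2, e, he, h1⟩

/-- the order is total -/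
lemma bef_total {f g : ℝ ≃o ℝ} (hf : BB f) (hg : BB g) (pf : ∀ a, ∃ s, HasSl a f s)
    (pg : ∀ a, ∃ s, HasSl a g s) (hne : f ≠ g) : Bef f g ∨ Bef g f := by
  obtain ⟨h1, h2⟩ := fix_of_bdd hf hg hne
  set a := sInf {t | f t ≠ g t} with ha
  obtain ⟨s, q, e, he, h3⟩ := pf a
  obtain ⟨s', q', e', he', h4⟩ := pg a
  have hm : a < min e e' := lt_min he he'
  have e1 := h3 a le_rfl he
  have e2 := h4 a le_rfl he'
  have e3 := h1 a le_rfl
  have hd : ∀ t, a ≤ t → t < min e e' → f t - g t = (s - s') * (t - a) := by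
    intro t ht hte
    rw [h3 t ht (hte.trans_le (min_le_left _ _)), h4 t ht (hte.trans_le (min_le_right _ _))]
    linear_combination e2 - e1 + e3
  rcases lt_trichotomy s s' with h | h | h
  · right
    refine ⟨a, fun t ht => (h1 t ht).symm, min e e', hm, fun t ht hte => ?_⟩
    have h5 := hd t ht.le hte
    have h6 : (s - s') * (t - a) < 0 := mul_neg_of_neg_of_pos (by linarith) (by linarith)
    linarith
  · exfalso
    obtain ⟨t, ht, hte, h5⟩ := h2 _ hm
    apply h5
    have h6 := hd t ht hte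
    rw [h, sub_self, zero_mul] at h6
    linarith
  · left
    refine ⟨a, h1, min e e', hm, fun t ht hte => ?_⟩
    have h5 := hd t ht.le hte
    have h6 : 0 < (s - s') * (t - a) := mul_pos (by linarith) (by linarith)
    linarith

/-- **roots are unique** -/
lemma roots {f g : ℝ ≃o ℝ} (hf : BB f) (hg : BB g) (pf : ∀ a, ∃ s, HasSl a f s)
    (pg : ∀ a, ∃ s, HasSl a g s) {l : ℕ} (hl : 0 < l) (h : f ^ l = g ^ l) : f = g := by
  obtain ⟨n, rfl⟩ : ∃ n, l = n + 1 := ⟨l - 1, by omega⟩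
  by_contra hne
  rcases bef_total hf hg pf pg hne with h1 | h1
  · have h2 := h1.pow n
    rw [h] at h2
    exact Bef.irrefl _ h2
  · have h2 := h1.pow n
    rw [h] at h2
    exact Bef.irrefl _ h2

/-- the infimum of the support -/
noncomputable def inf (c : ℝ ≃o ℝ) : ℝ := sInf {t | c t ≠ (1 : ℝ ≃o ℝ) t}

lemma one_bb : BB 1 := ⟨0, fun _ _ => rfl⟩

/-- elements commuting with `c` fix the infimum of the support of `c` -/
lemma fix_inf {c g : ℝ ≃o ℝ} (hc : BB c) (hne : c ≠ 1) (hg : g * c = c * g) :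
    g (inf c) = inf c := by
  obtain ⟨h1, h2⟩ := fix_of_bdd hc one_bb hne
  have key : ∀ g : ℝ ≃o ℝ, g * c = c * g → g (inf c) ≤ inf c := by
    intro g hg
    by_contra hcon
    push Not at hcon
    obtain ⟨t, ht, hte, h3⟩ := h2 _ hcon
    apply h3
    have h4 : g.symm t < inf c := by rwa [g.symm_apply_lt]
    have h5 := h1 _ h4.le
    have h6 : g (c (g.symm t)) = c (g (g.symm t)) := congrArg (fun k : ℝ ≃o ℝ => k (g.symm t)) hg
    rw [h5, g.apply_symm_apply] at h6
    rw [← h6]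
    show g (g.symm t) = t
    exact g.apply_symm_apply t
  refine le_antisymm (key g hg) ?_
  have h3 : g⁻¹ * c = c * g⁻¹ := by
    rw [inv_mul_eq_iff_eq_mul, ← mul_assoc, hg, mul_assoc, mul_inv_cancel, mul_one]
  have h4 := key g⁻¹ h3
  have h5 : g.symm (inf c) ≤ inf c := h4
  rwa [g.symm_apply_le] at h5

/-- the slope of `c` at the infimum of its support is not one -/
lemma slope_ne {c : ℝ ≃o ℝ} (hc : BB c) (hne : c ≠ 1) : ¬ HasSl (inf c) c 1 := by
  obtain ⟨h1, h2⟩ := fix_of_bdd hc one_bb hne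
  rintro ⟨q, e, he, h3⟩
  have h4 := h3 (inf c) le_rfl he
  have h5 : c (inf c) = inf c := h1 _ le_rfl
  have hq : q = 0 := by linarith
  obtain ⟨t, ht, hte, h6⟩ := h2 _ he
  apply h6
  show c t = t
  rw [h3 t ht hte, hq]
  ring

end Pool.Agent.V11133.PL
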