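import Pool.Agent.V11133.PL.Slopes
import Pool.Agent.Y72.Un.CnLin
import Pool.Agent.Y72.Un.Tr
import Pool.Agent.Y72.Un.All

/-!
# The conditions on centralisers and roots, and their consequences
-/

set_option autoImplicit false

namespace Pool.Agent.V11133.PL

open Set Pool.Agent.Y72.Log Pool.Agent.Y72.Dt Pool.Agent.Y72.Un Pool.Agent.Y72.Tr H219.Wh
open Pool.Agent.H23R2 (IsCoc isCoc_of_hochschild pairing)

/-- finitely generated groups of piecewise linear homeomorphisms satisfy the conditions -/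
theorem cn_pl {Γ : Type*} [Group Γ] (φ : Γ →* (ℝ ≃o ℝ))
    (hφ : Function.Injective φ) (h : ∀ g, IsPL (φ g)) (hb : ∀ g, BB (φ g))
    (H : Subgroup Γ) (hH : H.FG) : Cn H := by
  have : Group.FG H := (Group.fg_iff_subgroup_fg H).2 hH
  have hinj : Function.Injective (φ.comp H.subtype) := hφ.comp H.subtype_injective
  have hr : ∀ l : ℕ, 0 < l → ∀ x y : H, x ^ l = y ^ l → x = y := by
    intro l hl x y hxy
    apply hinj
    apply roots (hb x) (hb y) (h x).hasSl (h y).hasSl hl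
    have h1 := congrArg (φ.comp H.subtype) hxy
    rw [map_pow, map_pow] at h1
    exact h1
  have hca : ∀ c : H, c ≠ 1 → Ca c := by
    intro c hc
    obtain ⟨f, h1, h2⟩ := exists_add (φ.comp H.subtype) hinj (fun g => h g) (fun g => hb g) hc
    exact ⟨f, fun x y hx hy => h1 x y hx hy, h2⟩
  refine ⟨fun g m hm hg => hr m hm g 1 (by rw [hg, one_pow]), ?_, fun c hc => fd_ca (hca c hc),
    fun c hc => Or.inl (hca c hc)⟩
  apply Nat.infinite_setOfPred_prime.mono
  intro l hl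
  exact ⟨hl, hr l (Nat.Prime.pos hl)⟩

/-- groups with commutative centralisers -/
theorem cn_comm {H : Type*} [Group H] (htf : ∀ g : H, ∀ m : ℕ, 0 < m → g ^ m = 1 → g = 1)
    (hc : ∀ c x y : H, c ≠ 1 → x * c = c * x → y * c = c * y → x * y = y * x)
    (hd : ∀ c : H, c ≠ 1 → {l : ℕ | l.Prime ∧ ∃ x : H, x ^ l = c}.Finite) : Cn H := by
  refine ⟨htf, ?_, hd, fun c hc1 => Or.inr fun x y hx hy => hc c x y hc1 hx hy⟩
  apply Nat.infinite_setOfPred_prime.mono
  intro l hl
  refine ⟨hl, fun x y hxy => ?_⟩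
  have hl0 : 0 < l := Nat.Prime.pos hl
  by_cases h1 : x ^ l = 1
  · rw [htf x l hl0 h1, htf y l hl0 (by rw [← hxy, h1])]
  · have h2 : x * y = y * x := by
      apply hc (x ^ l) x y h1
      · exact (pow_mul_comm' x l).symm
      · rw [hxy]
        exact (pow_mul_comm' y l).symm
    have h3 : (x * y⁻¹) ^ l = 1 := by
      have h4 : Commute x y⁻¹ := Commute.inv_right h2
      rw [h4.mul_pow, hxy, inv_pow, mul_inv_cancel]
    exact mul_inv_eq_one.1 (htf _ l hl0 h3)

universe u w x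

/-- **determinants and the Dennis trace**, for groups all of whose finitely generated subgroups
satisfy the conditions on centralisers and roots -/
theorem both {Γ : Type u} [Group Γ] {n : ℕ}
    (hn : ∀ H : Subgroup Γ, H.FG → Cn H)
    (A : (Matrix (Fin n) (Fin n) (MonoidAlgebra ℤ Γ))ˣ) :
    ∃ γ : Γ, (∃ ε : ℤ, (ε = 1 ∨ ε = -1) ∧ ∀ (L : Type x) [Field L] (d : ℕ)
      (ρ : Γ →* GL (Fin d) L),
      (Matrix.of fun x y : Fin n × Fin d =>
        (A.val x.1 y.1).coeff.sum fun g a => (a : L) * (ρ g).val x.2 y.2).det =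
          (ε : L) ^ d * (ρ γ).val.det) ∧
    ∃ k : ℕ, 0 < k ∧ ∀ (M : Type w) [AddCommGroup M] (f : Γ → Γ → M),
      (∀ x y z : Γ, f (x * y) z - f x (y * z) + f (z * x) y = 0) →
      k • ((∑ i, ∑ j, ((A⁻¹).val i j).coeff.sum fun g b =>
          (A.val j i).coeff.sum fun h a => (b * a) • f g h) - f γ⁻¹ γ) = 0 ∧
      ∀ m : ℕ, 0 < m → ∃ y : M,
        (∑ i, ∑ j, ((A⁻¹).val i j).coeff.sum fun g b =>
          (A.val j i).coeff.sum fun h a => (b * a) • f g h) - f γ⁻¹ γ = m • y := by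
  obtain ⟨H, hH, hS⟩ := exists_fg A
  obtain ⟨A', hA'⟩ := exists_sub A H hS
  have : Group.FG H := (Group.fg_iff_subgroup_fg H).2 hH
  refine ⟨(gamA A' : H), ⟨DD (trv H ℤ) A'.val, sign_pm A', fun L _ d ρ => ?_⟩, ?_⟩
  · let ρ' : Γ →* Matrix (Fin d) (Fin d) L := (Units.coeHom _).comp ρ
    have h1 := all_reps_sign (hn H hH) A' (ρ'.comp H.subtype)
    have h2 : DD (ρ'.comp H.subtype) A'.val = (Matrix.of fun x y : Fin n × Fin d =>
        (A.val x.1 y.1).coeff.sum fun g a => (a : L) * (ρ g).val x.2 y.2).det := by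
      unfold DD
      rw [← blkR_mpU, ← hA']
      congr 1
      ext1 x y
      exact lrG_apply ρ' (A.val x.1 y.1) x.2 y.2
    rw [h2, Int.cast_pow] at h1
    exact h1
  · obtain ⟨k, hk, h1⟩ := PD_tors.{w} A' (hn H hH)
    refine ⟨k, hk, ?_⟩
    intro M _ f hf
    have hcoc : IsCoc (fun (w x : H) => f ((x⁻¹ : H) * (w : H) : H) (x : H)) :=
      isCoc_of_hochschild (fun x y : H => f x y) (fun x y z => hf x y z)
    have h2 : pairing f (A⁻¹).val A.val =
        PD A' (fun (w x : H) => f ((x⁻¹ : H) * (w : H) : H) (x : H)) := by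
      rw [hA', pairing_mpU]
      exact pairing_PD A' (fun x y : H => f x y)
    have h3 : f ((gamA A' : H) : Γ)⁻¹ ((gamA A' : H) : Γ) =
        (fun (w x : H) => f ((x⁻¹ : H) * (w : H) : H) (x : H)) 1 (gamA A') := by
      simp
    have h4 : (∑ i, ∑ j, ((A⁻¹).val i j).coeff.sum fun g b =>
          (A.val j i).coeff.sum fun h a => (b * a) • f g h) = pairing f (A⁻¹).val A.val := rfl
    rw [h4, h2, h3]
    exact ⟨h1 M _ hcoc, fun m hm => PD_div A' (hn H hH) hcoc m hm⟩

end Pool.Agent.V11133.PL
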