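import Pool.Agent.H23R2.Odd.Sub

/-!
# Odd cycles over group rings of groups all of whose finitely generated subgroups have centralisers
with sufficiently many homomorphisms to the integers
-/

set_option autoImplicit false

namespace Pool.Agent.V11133.PL

open Pool.Agent.H23R2.Ch Pool.Agent.H23R2 Pool.Agent.H23R2.Odd

universe u1 u3 u4

/-- an additive function on the centraliser -/
lemma pow_add {H : Type*} [Group H] {c : H} {f : H → ℤ}
    (hf : ∀ x y, x * c = c * x → y * c = c * y → f (x * y) = f x + f y) {x : H}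
    (hx : x * c = c * x) (n : ℕ) : f (x ^ (n + 1)) = (n + 1) * f x := by
  induction n with
  | zero => simp
  | succ n ih =>
    have h1 : x ^ (n + 1) * c = c * x ^ (n + 1) := (Commute.pow_left (show Commute x c from hx) _)
    rw [pow_succ, hf _ _ h1 hx, ih]
    push_cast
    ring

/-- elements are not infinitely divisible -/
lemma not_div {H : Type*} [Group H] {c : H} {f : H → ℤ}
    (hf : ∀ x y, x * c = c * x → y * c = c * y → f (x * y) = f x + f y) (hc : f c ≠ 0)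
    {p : ℕ} (hp : p.Prime) : ¬ ∀ j : ℕ, ∃ x : H, x ^ p ^ j = c := by
  intro h
  obtain ⟨x, hx⟩ := h (f c).natAbs
  have h1 : x * c = c * x := by
    rw [← hx]
    exact (pow_mul_comm' x _).symm
  have h0 : 0 < p ^ (f c).natAbs := pow_pos hp.pos _
  have h2 := pow_add hf h1 (p ^ (f c).natAbs - 1)
  rw [Nat.sub_add_cancel h0, hx] at h2
  have h3 : ((p ^ (f c).natAbs : ℕ) : ℤ) ∣ f c := by
    have h4 : (((p ^ (f c).natAbs - 1 : ℕ) : ℤ) + 1) = ((p ^ (f c).natAbs : ℕ) : ℤ) := by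
      have h5 := Nat.sub_add_cancel h0
      exact_mod_cast congrArg (fun k : ℕ => (k : ℤ)) h5
    rw [h4] at h2
    exact ⟨f x, h2⟩
  have h4 : p ^ (f c).natAbs ∣ (f c).natAbs := Int.natCast_dvd.1 h3
  have h5 := Nat.le_of_dvd (Int.natAbs_pos.2 hc) h4
  have h6 : (f c).natAbs < p ^ (f c).natAbs := Nat.lt_pow_self hp.one_lt
  omega

theorem odd {G : Type u1} [Group G] (htf : ∀ g : G, ∀ m : ℕ, 0 < m → g ^ m = 1 → g = 1)
    (hcen : ∀ H : Subgroup G, H.FG → ∀ c : H, c ≠ 1 → ∃ f : H → ℤ,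
      (∀ x y, x * c = c * x → y * c = c * y → f (x * y) = f x + f y) ∧ f c ≠ 0)
    {n : ℕ} (A : (Matrix (Fin n) (Fin n) (MonoidAlgebra ℤ G))ˣ) :
    ∃ γ : G, ∀ (M : Type u3) [AddCommGroup M],
        (∀ x : M, x ≠ 0 → {p : ℕ | p.Prime ∧ ¬ ∃ y : M, p • y = x}.Infinite) →
      ∀ (Ω : Type u4) [Ring Ω] (𝒜 : ℕ → Submodule ℤ Ω) [GradedAlgebra 𝒜]
        (δ : Ω →ₗ[ℤ] Ω) (T : Ω →ₗ[ℤ] M) (k : ℕ), IsCycle (2 * k + 1) 𝒜 δ T →
      ∀ (ρ : MonoidAlgebra ℤ G →ₐ[ℤ] Ω), (∀ a, ρ a ∈ 𝒜 0) →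
        T ((A⁻¹).val.map ρ * (A.val.map ρ).map δ *
            (((A⁻¹).val.map ρ).map δ * (A.val.map ρ).map δ) ^ k).trace =
          T (ρ (MonoidAlgebra.single γ⁻¹ 1) * δ (ρ (MonoidAlgebra.single γ 1)) *
            (δ (ρ (MonoidAlgebra.single γ⁻¹ 1)) * δ (ρ (MonoidAlgebra.single γ 1))) ^ k) := by
  obtain ⟨γ, _, hγ⟩ := main_sub A.val (A⁻¹).val (by rw [← Units.val_mul, mul_inv_cancel, Units.val_one])
    (by rw [← Units.val_mul, inv_mul_cancel, Units.val_one])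
  refine ⟨γ, ?_⟩
  intro M _ hM Ω _ 𝒜 _ δ T k hcyc ρ hρ
  refine hγ {p : ℕ | p.Prime} ?_ M hM Ω 𝒜 δ T k hcyc ρ hρ ?_
  · intro p hp
    exact ⟨hp, fun g _ hg => htf g p (Nat.Prime.pos hp) hg⟩
  · rintro g hg ⟨p, hp, hroot⟩
    exfalso
    set H := supGrp A.val (A⁻¹).val with hH
    obtain ⟨x0, hx0, hx0g⟩ := hroot 0
    have hgH : g ∈ H := by
      rw [← hx0g]
      exact Subgroup.pow_mem _ hx0 _
    obtain ⟨f, hf, hfc⟩ := hcen H (supGrp_fg A.val (A⁻¹).val) ⟨g, hgH⟩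
      (fun hc => hg (congrArg Subtype.val hc))
    apply not_div hf hfc hp
    intro j
    obtain ⟨x, hx, hxg⟩ := hroot j
    exact ⟨⟨x, hx⟩, Subtype.ext hxg⟩

end Pool.Agent.V11133.PL
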