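import Pool.Agent.V11133.PL.Basic

/-!
# Groups of piecewise linear homeomorphisms of the line: slopes of the elements of a finitely
generated group
-/

set_option autoImplicit false

namespace Pool.Agent.V11133.PL

open Set

lemma IsPL.slopes {f : ℝ ≃o ℝ} (h : IsPL f) : ∃ S : Finset ℝ, ∀ a, ∃ s ∈ S, HasSl a f s := by
  classical
  obtain ⟨S, hS⟩ := h
  refine ⟨S.image Prod.fst, fun a => ?_⟩
  obtain ⟨p, hp, e, he, h1⟩ := hS a
  exact ⟨p.1, Finset.mem_image_of_mem _ hp, p.2, e, he, h1⟩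

/-- the logarithms of the slopes of the elements of a finitely generated group generate a finitely
generated group -/
lemma exists_fg_slopes {H : Type*} [Group H] [Group.FG H] (φ : H →* (ℝ ≃o ℝ))
    (h : ∀ g, IsPL (φ g)) :
    ∃ L : AddSubgroup ℝ, L.FG ∧ ∀ g a, ∃ s, HasSl a (φ g) s ∧ Real.log s ∈ L := by
  classical
  obtain ⟨S, hS, hSf⟩ := Group.fg_iff.1 (inferInstance : Group.FG H)
  choose T hT using fun g => (h g).slopes
  let U : Set ℝ := ⋃ g ∈ S, ((T g : Set ℝ).image Real.log)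
  have hU : U.Finite := hSf.biUnion fun g _ => ((T g).finite_toSet.image _)
  refine ⟨AddSubgroup.closure U, ⟨hU.toFinset, by rw [hU.coe_toFinset]⟩, ?_⟩
  intro g
  have hg : g ∈ Subgroup.closure S := by rw [hS]; exact Subgroup.mem_top g
  induction hg using Subgroup.closure_induction with
  | mem g hg =>
    intro a
    obtain ⟨s, hs, h1⟩ := hT g a
    refine ⟨s, h1, AddSubgroup.subset_closure ?_⟩
    exact Set.mem_biUnion hg ⟨s, hs, rfl⟩
  | one =>
    intro a
    refine ⟨1, ?_, ?_⟩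
    · rw [map_one]
      exact HasSl.one a
    · rw [Real.log_one]
      exact zero_mem _
  | mul x y _ _ hx hy =>
    intro a
    obtain ⟨s, h1, h2⟩ := hy a
    obtain ⟨s', h3, h4⟩ := hx (φ y a)
    refine ⟨s' * s, ?_, ?_⟩
    · rw [map_mul]
      exact h1.mul h3
    · rw [Real.log_mul h3.pos.ne' h1.pos.ne']
      exact add_mem h4 h2
  | inv x _ hx =>
    intro a
    obtain ⟨s, h1, h2⟩ := hx ((φ x).symm a)
    refine ⟨s⁻¹, ?_, ?_⟩
    · rw [map_inv]
      have h3 := h1.inv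
      rwa [(φ x).apply_symm_apply] at h3
    · rw [Real.log_inv]
      exact neg_mem h2

/-- homomorphisms of finitely generated groups of real numbers to the integers -/
lemma exists_hom {L : AddSubgroup ℝ} (hL : L.FG) {v : ℝ} (hv : v ∈ L) (hv0 : v ≠ 0) :
    ∃ f : L →+ ℤ, f ⟨v, hv⟩ ≠ 0 := by
  classical
  have h1 : Module.Finite ℤ L := by
    rw [Module.Finite.iff_addGroup_fg]
    exact (AddGroup.fg_iff_addSubgroup_fg L).2 hL
  have h2 : Module.IsTorsionFree ℤ L := inferInstance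
  have h3 : Module.Free ℤ L := Module.free_of_finite_type_torsion_free'
  let b := Module.Free.chooseBasis ℤ L
  have h4 : b.repr ⟨v, hv⟩ ≠ 0 := by
    intro h0
    apply hv0
    have h5 : (⟨v, hv⟩ : L) = 0 := by
      rwa [LinearEquiv.map_eq_zero_iff] at h0
    exact congrArg Subtype.val h5
  obtain ⟨i, hi⟩ := Finsupp.ne_iff.1 h4
  exact ⟨(b.coord i).toAddMonoidHom, hi⟩

/-- the slope -/
noncomputable def sl {H : Type*} [Group H] {φ : H →* (ℝ ≃o ℝ)}
    {L : AddSubgroup ℝ} (h : ∀ g a, ∃ s, HasSl a (φ g) s ∧ Real.log s ∈ L) (a : ℝ) (g : H) : L :=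
  ⟨Real.log (Classical.choose (h g a)), (Classical.choose_spec (h g a)).2⟩

lemma sl_eq {H : Type*} [Group H] {φ : H →* (ℝ ≃o ℝ)}
    {L : AddSubgroup ℝ} (h : ∀ g a, ∃ s, HasSl a (φ g) s ∧ Real.log s ∈ L) {a : ℝ} {g : H} {s : ℝ}
    (hs : HasSl a (φ g) s) : (sl h a g : ℝ) = Real.log s := by
  unfold sl
  rw [hs.unique (Classical.choose_spec (h g a)).1]

lemma sl_mul {H : Type*} [Group H] {φ : H →* (ℝ ≃o ℝ)}
    {L : AddSubgroup ℝ} (h : ∀ g a, ∃ s, HasSl a (φ g) s ∧ Real.log s ∈ L) {a : ℝ} {g k : H}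
    (hk : φ k a = a) : sl h a (g * k) = sl h a g + sl h a k := by
  obtain ⟨s, h1, _⟩ := h k a
  obtain ⟨s', h2, _⟩ := h g a
  have h3 : HasSl a (φ (g * k)) (s' * s) := by
    rw [map_mul]
    apply h1.mul
    rwa [hk]
  apply Subtype.ext
  rw [AddSubgroup.coe_add, sl_eq h h3, sl_eq h h1, sl_eq h h2,
    Real.log_mul h2.pos.ne' h1.pos.ne']

/-- **an additive function on the centraliser of `c` which does not vanish at `c`** -/
theorem exists_add {H : Type*} [Group H] [Group.FG H] (φ : H →* (ℝ ≃o ℝ))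
    (hφ : Function.Injective φ) (h : ∀ g, IsPL (φ g)) (hb : ∀ g, BB (φ g)) {c : H} (hc : c ≠ 1) :
    ∃ f : H → ℤ, (∀ x y, x * c = c * x → y * c = c * y → f (x * y) = f x + f y) ∧ f c ≠ 0 := by
  obtain ⟨L, hL, h1⟩ := exists_fg_slopes φ h
  have hc1 : φ c ≠ 1 := fun h0 => hc (hφ (by rw [h0, map_one]))
  set a := inf (φ c) with ha
  have hfix : ∀ x, x * c = c * x → φ x a = a := by
    intro x hx
    apply fix_inf (hb c) hc1
    rw [← map_mul, hx, map_mul]
  have hv : (sl h1 a c : ℝ) ≠ 0 := by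
    obtain ⟨s, h2, _⟩ := h1 c a
    rw [sl_eq h1 h2]
    have h3 : s ≠ 1 := by
      rintro rfl
      exact slope_ne (hb c) hc1 h2
    intro h4
    rcases Real.log_eq_zero.1 h4 with h5 | h5 | h5
    · exact h2.pos.ne' h5
    · exact h3 h5
    · have := h2.pos
      linarith
  obtain ⟨f, hf⟩ := exists_hom hL (sl h1 a c).2 hv
  refine ⟨fun g => f (sl h1 a g), fun x y _ hy => ?_, hf⟩
  show f (sl h1 a (x * y)) = f (sl h1 a x) + f (sl h1 a y)
  rw [sl_mul h1 (hfix y hy), map_add]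

end Pool.Agent.V11133.PL
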